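import Mathlib
import Pool.Agent.N898.BU.Stm

/-!
# Project BU (helper898): sparse sets and Dirichlet series (helper592)
-/

set_option autoImplicit false

namespace Pool.Agent.N592.BU

open Filter Topology Asymptotics
open Pool.Agent.N898.BU (S_CS)

/-- the contribution of a dyadic block -/
lemma block {P : Set ℕ} {ε : ℝ} {j : ℕ} (hj1 : 1 ≤ j)
    (hN : ((({p : ℕ | p ∈ P ∧ (p : ℝ) ≤ ((2 ^ (j + 1) : ℕ) : ℝ)}.ncard : ℕ)) : ℝ) ≤
      ε * (Real.sqrt ((2 ^ (j + 1) : ℕ) : ℝ) / Real.log ((2 ^ (j + 1) : ℕ) : ℝ)))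
    {δ : ℝ} (hδ : 0 < δ) (G : Finset ℕ) (hG : ∀ p ∈ G, p ∈ P ∧ 2 ^ j ≤ p ∧ p < 2 ^ (j + 1)) :
    ∑ p ∈ G, Real.log (p : ℝ) * (p : ℝ) ^ (-(1 / 2 + δ)) ≤
      ε * Real.sqrt 2 * ((2 : ℝ) ^ (-δ)) ^ j := by
  have h2j : (0 : ℝ) < 2 ^ j := by positivity
  have hlog : 0 < Real.log ((2 ^ (j + 1) : ℕ) : ℝ) := by
    apply Real.log_pos
    have : 1 < 2 ^ (j + 1) := Nat.one_lt_two_pow (by omega)
    exact_mod_cast this
  have h1 : ∀ p ∈ G, Real.log (p : ℝ) * (p : ℝ) ^ (-(1 / 2 + δ)) ≤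
      Real.log ((2 ^ (j + 1) : ℕ) : ℝ) * ((2 : ℝ) ^ j) ^ (-(1 / 2 + δ)) := by
    intro p hp
    obtain ⟨_, hp1, hp2⟩ := hG p hp
    have hp1' : (2 : ℝ) ^ j ≤ p := by exact_mod_cast hp1
    have hp0 : (0 : ℝ) < p := lt_of_lt_of_le h2j hp1'
    have hp2' : (p : ℝ) ≤ ((2 ^ (j + 1) : ℕ) : ℝ) := by exact_mod_cast hp2.le
    have ha : Real.log (p : ℝ) ≤ Real.log ((2 ^ (j + 1) : ℕ) : ℝ) := Real.log_le_log hp0 hp2'
    have hb : (p : ℝ) ^ (-(1 / 2 + δ)) ≤ ((2 : ℝ) ^ j) ^ (-(1 / 2 + δ)) :=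
      Real.rpow_le_rpow_of_nonpos h2j hp1' (by linarith)
    exact mul_le_mul ha hb (Real.rpow_nonneg hp0.le _) hlog.le
  have h2 : (G.card : ℝ) ≤
      ((({p : ℕ | p ∈ P ∧ (p : ℝ) ≤ ((2 ^ (j + 1) : ℕ) : ℝ)}.ncard : ℕ)) : ℝ) := by
    have hfin : {p : ℕ | p ∈ P ∧ (p : ℝ) ≤ ((2 ^ (j + 1) : ℕ) : ℝ)}.Finite := by
      apply (Set.finite_Iic (2 ^ (j + 1))).subset
      rintro p ⟨_, hp⟩
      exact_mod_cast hp
    have h3 : (G : Set ℕ) ⊆ {p : ℕ | p ∈ P ∧ (p : ℝ) ≤ ((2 ^ (j + 1) : ℕ) : ℝ)} := by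
      intro p hp
      obtain ⟨hpP, _, hp2⟩ := hG p hp
      exact ⟨hpP, by exact_mod_cast hp2.le⟩
    have h4 := Set.ncard_le_ncard h3 hfin
    rw [Set.ncard_coe_finset] at h4
    exact_mod_cast h4
  have h5 : ((2 : ℝ) ^ j) ^ (-(1 / 2 + δ)) * Real.sqrt ((2 ^ (j + 1) : ℕ) : ℝ) =
      Real.sqrt 2 * ((2 : ℝ) ^ (-δ)) ^ j := by
    rw [Real.sqrt_eq_rpow, Real.sqrt_eq_rpow]
    push_cast
    rw [← Real.rpow_natCast 2 j, ← Real.rpow_natCast 2 (j + 1), ← Real.rpow_natCast _ j,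
      ← Real.rpow_mul (by norm_num), ← Real.rpow_mul (by norm_num), ← Real.rpow_mul (by norm_num),
      ← Real.rpow_add (by norm_num), ← Real.rpow_add (by norm_num)]
    congr 1
    push_cast
    ring
  calc ∑ p ∈ G, Real.log (p : ℝ) * (p : ℝ) ^ (-(1 / 2 + δ))
      ≤ ∑ p ∈ G, Real.log ((2 ^ (j + 1) : ℕ) : ℝ) * ((2 : ℝ) ^ j) ^ (-(1 / 2 + δ)) :=
        Finset.sum_le_sum h1
    _ = G.card * (Real.log ((2 ^ (j + 1) : ℕ) : ℝ) * ((2 : ℝ) ^ j) ^ (-(1 / 2 + δ))) := by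
        rw [Finset.sum_const, nsmul_eq_mul]
    _ ≤ (ε * (Real.sqrt ((2 ^ (j + 1) : ℕ) : ℝ) / Real.log ((2 ^ (j + 1) : ℕ) : ℝ))) *
        (Real.log ((2 ^ (j + 1) : ℕ) : ℝ) * ((2 : ℝ) ^ j) ^ (-(1 / 2 + δ))) := by
        have : 0 < ((2 : ℝ) ^ j) ^ (-(1 / 2 + δ)) := Real.rpow_pos_of_pos h2j _
        gcongr
        exact h2.trans hN
    _ = ε * (((2 : ℝ) ^ j) ^ (-(1 / 2 + δ)) * Real.sqrt ((2 ^ (j + 1) : ℕ) : ℝ)) := by
        field_simp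
    _ = _ := by rw [h5]; ring

lemma key {P : Set ℕ} (hP : ∀ p ∈ P, 2 ≤ p)
    (hN : (fun x : ℝ => ((({p : ℕ | p ∈ P ∧ (p : ℝ) ≤ x}.ncard : ℕ)) : ℝ)) =o[atTop]
      fun x : ℝ => Real.sqrt x / Real.log x) {ε : ℝ} (hε : 0 < ε) :
    ∃ A : ℝ, 0 ≤ A ∧ ∀ δ : ℝ, 0 < δ → ∀ F : Finset P,
      ∑ p ∈ F, Real.log (p : ℕ) * ((p : ℕ) : ℝ) ^ (-(1 / 2 + δ)) ≤
        A + ε * Real.sqrt 2 / (1 - (2 : ℝ) ^ (-δ)) := by
  classical
  have h0 := hN.def hε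
  obtain ⟨x₀, hx₀⟩ := eventually_atTop.mp h0
  obtain ⟨J₀, hJ₀⟩ := pow_unbounded_of_one_lt x₀ (one_lt_two : (1 : ℝ) < 2)
  obtain ⟨J, hJ⟩ : ∃ J, J = max J₀ 1 := ⟨_, rfl⟩
  have hJ1 : 1 ≤ J := by rw [hJ]; exact le_max_right _ _
  have hblock : ∀ j, J ≤ j → ((({p : ℕ | p ∈ P ∧ (p : ℝ) ≤ ((2 ^ (j + 1) : ℕ) : ℝ)}.ncard : ℕ)) : ℝ) ≤
      ε * (Real.sqrt ((2 ^ (j + 1) : ℕ) : ℝ) / Real.log ((2 ^ (j + 1) : ℕ) : ℝ)) := by
    intro j hj
    have h1 : x₀ ≤ ((2 ^ (j + 1) : ℕ) : ℝ) := by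
      push_cast
      refine hJ₀.le.trans (pow_le_pow_right₀ one_le_two ?_)
      have : J₀ ≤ J := by rw [hJ]; exact le_max_left _ _
      omega
    have h2 := hx₀ _ h1
    rw [Real.norm_of_nonneg (by positivity), Real.norm_of_nonneg ?_] at h2
    · exact h2
    · apply div_nonneg (Real.sqrt_nonneg _)
      apply Real.log_nonneg
      have : 1 ≤ 2 ^ (j + 1) := Nat.one_le_two_pow
      exact_mod_cast this
  refine ⟨∑ p ∈ Finset.range (2 ^ J), |Real.log (p : ℝ)|,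
    Finset.sum_nonneg fun _ _ => abs_nonneg _, fun δ hδ F => ?_⟩
  have hr0 : (0 : ℝ) < (2 : ℝ) ^ (-δ) := Real.rpow_pos_of_pos (by norm_num) _
  have hr1 : (2 : ℝ) ^ (-δ) < 1 := Real.rpow_lt_one_of_one_lt_of_neg one_lt_two (by linarith)
  obtain ⟨G, hG⟩ : ∃ G : Finset ℕ, G = F.map (Function.Embedding.subtype _) := ⟨_, rfl⟩
  have hGP : ∀ p ∈ G, p ∈ P := by
    intro p hp
    rw [hG, Finset.mem_map] at hp
    obtain ⟨q, _, rfl⟩ := hp
    exact q.2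
  have hsum : ∑ p ∈ F, Real.log (p : ℕ) * ((p : ℕ) : ℝ) ^ (-(1 / 2 + δ)) =
      ∑ p ∈ G, Real.log (p : ℝ) * (p : ℝ) ^ (-(1 / 2 + δ)) := by
    rw [hG, Finset.sum_map]
    rfl
  rw [hsum, ← Finset.sum_filter_add_sum_filter_not G (fun p => p < 2 ^ J)]
  apply add_le_add
  · calc ∑ p ∈ G.filter (fun p => p < 2 ^ J), Real.log (p : ℝ) * (p : ℝ) ^ (-(1 / 2 + δ))
        ≤ ∑ p ∈ G.filter (fun p => p < 2 ^ J), |Real.log (p : ℝ)| := by
          refine Finset.sum_le_sum fun p hp => ?_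
          have hpP := hGP p (Finset.mem_filter.mp hp).1
          have hp2 : (1 : ℝ) ≤ p := by
            have := hP p hpP
            exact_mod_cast (by omega : 1 ≤ p)
          have h1 : (p : ℝ) ^ (-(1 / 2 + δ)) ≤ 1 :=
            Real.rpow_le_one_of_one_le_of_nonpos hp2 (by linarith)
          have h2 : 0 ≤ (p : ℝ) ^ (-(1 / 2 + δ)) := Real.rpow_nonneg (by linarith) _
          calc Real.log (p : ℝ) * (p : ℝ) ^ (-(1 / 2 + δ))
              ≤ |Real.log (p : ℝ)| * (p : ℝ) ^ (-(1 / 2 + δ)) := by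
                gcongr
                exact le_abs_self _
            _ ≤ |Real.log (p : ℝ)| * 1 := by gcongr
            _ = _ := mul_one _
      _ ≤ _ := by
          refine Finset.sum_le_sum_of_subset_of_nonneg ?_ fun _ _ _ => abs_nonneg _
          intro p hp
          exact Finset.mem_range.mpr (Finset.mem_filter.mp hp).2
  · set G' := G.filter (fun p => ¬ p < 2 ^ J) with hG'
    have hmem : ∀ p ∈ G', p ∈ P ∧ 2 ^ J ≤ p := by
      intro p hp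
      obtain ⟨h1, h2⟩ := Finset.mem_filter.mp hp
      exact ⟨hGP p h1, not_lt.mp h2⟩
    rw [← Finset.sum_fiberwise_of_maps_to (g := Nat.log 2) (t := G'.image (Nat.log 2))
      (fun p hp => Finset.mem_image_of_mem _ hp)]
    calc _ ≤ ∑ j ∈ G'.image (Nat.log 2), ε * Real.sqrt 2 * ((2 : ℝ) ^ (-δ)) ^ j := by
          refine Finset.sum_le_sum fun j hj => ?_
          obtain ⟨q, hq, hqj⟩ := Finset.mem_image.mp hj
          have hJj : J ≤ j := by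
            rw [← hqj]
            exact Nat.le_log_of_pow_le one_lt_two (hmem q hq).2
          refine block (hJ1.trans hJj) (hblock j hJj) hδ _ fun p hp => ?_
          obtain ⟨hp1, hp2⟩ := Finset.mem_filter.mp hp
          have h1 := hmem p hp1
          have hp0 : p ≠ 0 := by
            have := hP p h1.1
            omega
          refine ⟨h1.1, ?_, ?_⟩
          · rw [← hp2]
            exact Nat.pow_log_le_self 2 hp0
          · rw [← hp2]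
            exact Nat.lt_pow_succ_log_self one_lt_two p
      _ = ε * Real.sqrt 2 * ∑ j ∈ G'.image (Nat.log 2), ((2 : ℝ) ^ (-δ)) ^ j := by
          rw [Finset.mul_sum]
      _ ≤ ε * Real.sqrt 2 * ∑' j : ℕ, ((2 : ℝ) ^ (-δ)) ^ j := by
          gcongr
          exact (summable_geometric_of_lt_one hr0.le hr1).sum_le_tsum _
            fun j _ => pow_nonneg hr0.le j
      _ = _ := by
          rw [tsum_geometric_of_lt_one hr0.le hr1]
          rfl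

/-- **S_CS.** -/
theorem main_CS : S_CS := by
  intro P hP hN
  have hnn : ∀ (s : ℝ) (p : P), 0 ≤ Real.log (p : ℕ) * ((p : ℕ) : ℝ) ^ s := by
    intro s p
    have h1 : (1 : ℝ) ≤ ((p : ℕ) : ℝ) := by
      have := hP p p.2
      exact_mod_cast (by omega : 1 ≤ (p : ℕ))
    exact mul_nonneg (Real.log_nonneg h1) (Real.rpow_nonneg (by linarith) _)
  refine ⟨?_, ?_⟩
  · intro σ hσ
    obtain ⟨A, _, h⟩ := key hP hN one_pos
    have h1 := h (σ - 1 / 2) (by linarith)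
    have h2 : -(1 / 2 + (σ - 1 / 2)) = -σ := by ring
    rw [h2] at h1
    exact summable_of_sum_le (fun p => hnn _ p) h1
  · rw [Metric.tendsto_nhds]
    intro η hη
    obtain ⟨A, hA0, h⟩ := key hP hN (ε := η / 8) (by positivity)
    have hA1 : 0 < A + 1 := by linarith
    have hpos : 0 < min 1 (η / (4 * (A + 1))) := by positivity
    filter_upwards [Ioo_mem_nhdsGT hpos] with δ hδ
    obtain ⟨hδ0, hδ1⟩ := hδ
    have hδ1' : δ < 1 := hδ1.trans_le (min_le_left _ _)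
    have hδ2 : δ < η / (4 * (A + 1)) := hδ1.trans_le (min_le_right _ _)
    have hr : (2 : ℝ) ^ (-δ) ≤ 1 - δ / 2 := by
      have h1 := rpow_one_add_le_one_add_mul_self (s := -1 / 2) (by norm_num)
        hδ0.le hδ1'.le
      have h2 : (2 : ℝ) ^ (-δ) = (1 + -1 / 2 : ℝ) ^ δ := by
        rw [Real.rpow_neg (by norm_num), ← Real.inv_rpow (by norm_num)]
        norm_num
      rw [h2]
      linarith
    have hden : δ / 2 ≤ 1 - (2 : ℝ) ^ (-δ) := by linarith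
    have hden0 : 0 < 1 - (2 : ℝ) ^ (-δ) := by linarith
    have hsum : ∑' p : P, Real.log (p : ℕ) * ((p : ℕ) : ℝ) ^ (-(1 / 2 + δ)) ≤
        A + η / 8 * Real.sqrt 2 / (1 - (2 : ℝ) ^ (-δ)) :=
      Real.tsum_le_of_sum_le (fun p => hnn _ p) (h δ hδ0)
    have hts0 : 0 ≤ ∑' p : P, Real.log (p : ℕ) * ((p : ℕ) : ℝ) ^ (-(1 / 2 + δ)) :=
      tsum_nonneg fun p => hnn _ p
    rw [dist_zero_right, Real.norm_of_nonneg (mul_nonneg hδ0.le hts0)]
    have hsq : Real.sqrt 2 ≤ 3 / 2 := by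
      rw [Real.sqrt_le_left (by norm_num)]
      norm_num
    have h5 : δ * (η / 8 * Real.sqrt 2 / (1 - (2 : ℝ) ^ (-δ))) ≤ η / 8 * (3 / 2) * 2 := by
      have h6 : δ / (1 - (2 : ℝ) ^ (-δ)) ≤ 2 := by
        rw [div_le_iff₀ hden0]
        linarith
      calc δ * (η / 8 * Real.sqrt 2 / (1 - (2 : ℝ) ^ (-δ))) =
          η / 8 * Real.sqrt 2 * (δ / (1 - (2 : ℝ) ^ (-δ))) := by ring
        _ ≤ η / 8 * (3 / 2) * 2 := by gcongr
    have h7 : δ * A ≤ η / 4 := by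
      rw [lt_div_iff₀ (by positivity)] at hδ2
      nlinarith
    calc δ * ∑' p : P, Real.log (p : ℕ) * ((p : ℕ) : ℝ) ^ (-(1 / 2 + δ))
        ≤ δ * (A + η / 8 * Real.sqrt 2 / (1 - (2 : ℝ) ^ (-δ))) := by gcongr
      _ = δ * A + δ * (η / 8 * Real.sqrt 2 / (1 - (2 : ℝ) ^ (-δ))) := by ring
      _ ≤ η / 4 + η / 8 * (3 / 2) * 2 := add_le_add h7 h5
      _ < η := by linarith

end Pool.Agent.N592.BU
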